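import Pool.Agent.V11176.QIneq

/-!
# A coefficientwise inequality between two `q`-series
-/

namespace Pool.Agent.Results.MP_acbfbf_co.QSeriesInequality

open PowerSeries Finset

/-- The `q`-Pochhammer symbol `(a; q)_n = ∏_{k=0}^{n-1} (1 - a q^k)`. -/
noncomputable def poch (a q : ℚ⟦X⟧) (n : ℕ) : ℚ⟦X⟧ := ∏ k ∈ range n, (1 - a * q ^ k)

/-- The Gaussian binomial coefficient `[n, m]` in the base `x`: it is
`(x;x)_n / ((x;x)_m (x;x)_{n-m})` for integers `0 ≤ m ≤ n`, and `0` for all other integers. -/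
noncomputable def gauss (x : ℚ⟦X⟧) (n m : ℤ) : ℚ⟦X⟧ :=
  if 0 ≤ m ∧ m ≤ n then
    poch x x n.toNat * (poch x x m.toNat)⁻¹ * (poch x x (n - m).toNat)⁻¹
  else 0

/-- The left-hand side. -/
noncomputable def lhs (L : ℕ) : ℚ⟦X⟧ :=
  (poch X (X ^ 2) L)⁻¹ *
    ((1 - X ^ (2 * L - 2)) * (1 - X ^ 2)⁻¹ + X ^ 3 * gauss (X ^ 2) ((L : ℤ) - 2) 2)

/-- The right-hand side. -/
noncomputable def rhs (L : ℕ) : ℚ⟦X⟧ :=
  X * gauss X ((L : ℤ) - 2) 2 * poch (-X ^ 3) X (L - 4)

open Pool.Agent.V11176.QIneq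

theorem const_poch (r : ℕ) (hr : 1 ≤ r) (n : ℕ) :
    constantCoeff (poch (X ^ r) (X ^ r) n) ≠ 0 := by
  unfold poch
  rw [map_prod, prod_ne_zero_iff]
  intro k _
  rw [← pow_mul, ← pow_add]
  exact const_ne _ (by omega)

theorem poch_succ (r n : ℕ) : poch (X ^ r) (X ^ r) (n + 1) =
    poch (X ^ r) (X ^ r) n * (1 - X ^ (r * (n + 1))) := by
  unfold poch
  rw [prod_range_succ, ← pow_mul, ← pow_add, mul_add, mul_one, add_comm]

theorem gauss_eq (r m : ℕ) (hr : 1 ≤ r) (hm : 2 ≤ m) :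
    gauss (X ^ r) (m : ℤ) 2 = G r m := by
  obtain ⟨t, rfl⟩ : ∃ t, m = t + 2 := ⟨m - 2, by omega⟩
  unfold gauss
  rw [if_pos (by constructor <;> omega)]
  have e1 : (((t + 2 : ℕ) : ℤ)).toNat = t + 2 := by omega
  have e2 : (2 : ℤ).toNat = 2 := rfl
  have e3 : (((t + 2 : ℕ) : ℤ) - 2).toNat = t := by omega
  rw [e1, e2, e3]
  have h1 := PowerSeries.mul_inv_cancel _ (const_poch r hr 2)
  have h2 := PowerSeries.mul_inv_cancel _ (const_poch r hr t)
  have h3 := poch_succ r t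
  have h4 := poch_succ r (t + 1)
  have h5 : poch (X ^ r) (X ^ r) 2 = (1 - X ^ r) * (1 - X ^ (2 * r)) := by
    have a1 := poch_succ r 0
    have a2 := poch_succ r 1
    have a0 : poch (X ^ r) (X ^ r) 0 = 1 := by simp [poch]
    rw [a0] at a1
    rw [show (2 : ℕ) = 1 + 1 by rfl, a2, show (1 : ℕ) = 0 + 1 by rfl, a1]
    congr 1
    · ring
    · congr 2
      ring
  have hu1 := u_mul r hr
  have hu2 := u_mul (2 * r) (by omega)
  have h6 : (poch (X ^ r) (X ^ r) 2)⁻¹ = u r * u (2 * r) := by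
    symm
    rw [PowerSeries.eq_inv_iff_mul_eq_one (const_poch r hr 2), h5]
    linear_combination ((1 - X ^ (2 * r)) * u (2 * r)) * hu1 + hu2
  rw [h6, show t + 2 = t + 1 + 1 by rfl, h4, h3]
  unfold G
  rw [show t + 1 + 1 - 1 = t + 1 by omega]
  linear_combination ((1 - X ^ (r * (t + 1))) * (1 - X ^ (r * (t + 1 + 1))) * (u r * u (2 * r))) * h2

theorem inv_poch (L : ℕ) : (poch X (X ^ 2) L)⁻¹ = Q L := by
  have hc : constantCoeff (poch (X : ℚ⟦X⟧) (X ^ 2) L) ≠ 0 := by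
    unfold poch
    rw [map_prod, prod_ne_zero_iff]
    intro k _
    have : (X : ℚ⟦X⟧) * (X ^ 2) ^ k = X ^ (2 * k + 1) := by
      rw [← pow_mul, pow_succ, mul_comm]
    rw [this]
    exact const_ne _ (by omega)
  symm
  rw [PowerSeries.eq_inv_iff_mul_eq_one hc]
  unfold Q poch
  rw [← prod_mul_distrib]
  apply prod_eq_one
  intro k _
  have : (X : ℚ⟦X⟧) * (X ^ 2) ^ k = X ^ (2 * k + 1) := by
    rw [← pow_mul, pow_succ, mul_comm]
  rw [this, mul_comm]
  exact u_mul _ (by omega)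

theorem poch_D (m : ℕ) : poch (-X ^ 3) X (m - 2) = D m := by
  unfold poch D
  rw [prod_Ico_eq_prod_range]
  apply prod_congr (by congr 1)
  intro k _
  rw [pow_add]
  ring

/-- **Theorem.** For every positive integer `L` and every `n`, the coefficient of `q^n` in the
right-hand side is at most the coefficient of `q^n` in the left-hand side. -/
theorem result (L : ℕ) (hL : 1 ≤ L) (n : ℕ) : coeff n (rhs L) ≤ coeff n (lhs L) := by
  rcases Nat.lt_or_ge L 4 with h | h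
  · have hg : ∀ x : ℚ⟦X⟧, gauss x ((L : ℤ) - 2) 2 = 0 := by
      intro x
      unfold gauss
      rw [if_neg]
      omega
    unfold rhs lhs
    rw [hg, hg, mul_zero, zero_mul, map_zero, mul_zero, add_zero, inv_poch]
    have h1 : Nn (Q L) := Nn.prod _ _ fun i _ => Nn.u _ (by omega)
    have h2 := Nn_geom 2 (L - 1) (by norm_num)
    rw [show 2 * (L - 1) = 2 * L - 2 by omega] at h2
    exact (h1.mul h2) n
  · obtain ⟨m, rfl⟩ : ∃ m, L = m + 2 := ⟨L - 2, by omega⟩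
    have hm : 2 ≤ m := by omega
    have e1 : (((m + 2 : ℕ) : ℤ) - 2) = (m : ℤ) := by push_cast; ring
    have hc := core m hm n
    rw [map_sub] at hc
    unfold rhs lhs
    have g1 := gauss_eq 1 m le_rfl hm
    rw [pow_one] at g1
    rw [e1, g1, gauss_eq 2 m (by norm_num) hm, inv_poch,
      show m + 2 - 4 = m - 2 by omega, poch_D m, show 2 * (m + 2) - 2 = 2 * m + 2 by omega]
    change coeff n (X * G 1 m * D m) ≤
      coeff n (Q (m + 2) * ((1 - X ^ (2 * m + 2)) * u 2 + X ^ 3 * G 2 m))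
    linarith

end Pool.Agent.Results.MP_acbfbf_co.QSeriesInequality
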